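import Pool.Agent.MP_a2d820_lc.h31p.Up
import Pool.Agent.MP_a2d820_lc.h31p.Sparse

/-!
Events with small positive certificates that are rare at every point can be excluded above a new
base point.
-/

set_option autoImplicit false

namespace Pool.Agent.MP_a2d820_lc.h22q

open Finset Pool.Agent.MP_a2d820_lc.h31p Pool.Agent.MP_a2d820_lc.h31p.UpRow

variable {V : Type} [Fintype V] [DecidableEq V]

theorem upOne {q : ℝ} {b S : Finset V} {σ : ℕ} {f : Finset V → Prop} (h0 : 0 < q)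
    (h1 : q ≤ 1 / 2) (h2 : 4 * q * σ ≤ 1) (hf : One b S σ f) :
    Pr q (fun z => ∃ y, b ∪ z ⊆ y ∧ f y) ≤ 2 * Pr q fun z => f (b ∪ z) := by
  classical
  have hP : ∀ (E : Finset V → Prop) [DecidablePred E], Pr q E = ∑ z ∈ univ.filter E, wt q z :=
    fun E _ => by
      rw [Pr, sum_filter]
      exact sum_congr rfl fun z _ => by by_cases h : E z <;> simp only [h, if_true, if_false]
  choose! U u1 u2 u3 using hf
  have key : ∀ z : Finset V, ∃ T : Finset V, (∃ y, b ∪ z ⊆ y ∧ f y) → Disjoint z T ∧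
      f (b ∪ (z ∪ T)) ∧ T ⊆ U (b ∪ (z ∪ T)) := by
    intro z
    by_cases h : ∃ y, b ∪ z ⊆ y ∧ f y
    · obtain ⟨y, ⟨y1, y2⟩, y3⟩ := exists_minimal_of_wellFoundedLT _ h
      have e : b ∪ (z ∪ y \ (b ∪ z)) = y := by rw [← union_assoc, union_sdiff_of_subset y1]
      have hb : b ⊆ y := subset_union_left.trans y1
      have hs : b ∪ z ∪ U y ∩ y ⊆ y := union_subset y1 inter_subset_right
      have := y3 (y := b ∪ z ∪ U y ∩ y) ⟨subset_union_left, u3 y hb y2 _
        (subset_union_left.trans subset_union_left) fun v hv =>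
          ⟨fun a => hs a, fun a => mem_union_right _ (mem_inter.2 ⟨hv, a⟩)⟩⟩ hs
      refine ⟨y \ (b ∪ z), fun _ => ⟨disjoint_sdiff.mono_left subset_union_right, ?_⟩⟩
      rw [e]
      refine ⟨y2, fun v hv => ?_⟩
      obtain ⟨a1, a2⟩ := mem_sdiff.1 hv
      exact (mem_inter.1 ((mem_union.1 (this a1)).resolve_left a2)).1
    · exact ⟨∅, fun h' => absurd h' h⟩
  choose g hg using key
  let φ : Finset V → (Σ _ : Finset V, Finset V) := fun z => ⟨z ∪ g z, g z⟩
  let F : (Σ _ : Finset V, Finset V) → ℝ := fun p => wt q p.1 * (2 * q) ^ p.2.card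
  let A := univ.filter fun z => ∃ y, b ∪ z ⊆ y ∧ f y
  let B := (univ.filter fun z => f (b ∪ z)).sigma fun z => (U (b ∪ z)).powerset
  have hinj : Set.InjOn φ A := fun z hz z' hz' e => by
    have d1 := (hg z (mem_filter.1 hz).2).1
    have d2 := (hg z' (mem_filter.1 hz').2).1
    have e1 : z ∪ g z = z' ∪ g z' := congrArg Sigma.fst e
    have e2 : g z = g z' := congrArg (fun p : (Σ _ : Finset V, Finset V) => p.2) e
    rw [← union_sdiff_cancel_right d1, e1, e2, union_sdiff_cancel_right d2]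
  have hsub : A.image φ ⊆ B := fun p hp => by
    obtain ⟨z, hz, rfl⟩ := mem_image.1 hp
    have := (hg z (mem_filter.1 hz).2).2
    exact mem_sigma.2 ⟨mem_filter.2 ⟨mem_univ _, this.1⟩, mem_powerset.2 this.2⟩
  rw [hP, hP]
  calc ∑ z ∈ A, wt q z ≤ ∑ z ∈ A, F (φ z) :=
        sum_le_sum fun z hz => wt_le h0 h1 (hg z (mem_filter.1 hz).2).1
    _ = ∑ p ∈ A.image φ, F p := (sum_image hinj).symm
    _ ≤ ∑ p ∈ B, F p := sum_le_sum_of_subset_of_nonneg hsub fun p _ _ =>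
        mul_nonneg (wt_nonneg h0 h1 _) (by positivity)
    _ ≤ ∑ z ∈ univ.filter fun z => f (b ∪ z), wt q z * 2 := by
        rw [sum_sigma]
        refine sum_le_sum fun z hz => ?_
        simp only [F]
        rw [← mul_sum]
        refine mul_le_mul_of_nonneg_left ?_ (wt_nonneg h0 h1 z)
        have a1 : ((U (b ∪ z)).card : ℝ) ≤ σ := by
          exact_mod_cast u2 _ subset_union_left (mem_filter.1 hz).2
        have a2 := Finset.sum_pow_mul_eq_add_pow (2 * q) 1 (U (b ∪ z))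
        simp only [one_pow, mul_one] at a2
        have a3 := pow_le (r := 2 * q) (by linarith) (U (b ∪ z)).card (by nlinarith)
        nlinarith
    _ = _ := by rw [← sum_mul, mul_comm]

open Classical in
theorem sum_pr {Ω : Type} (𝒦 : Finset Ω) (q : ℝ) (E : Ω → Finset V → Prop) :
    ∑ κ ∈ 𝒦, Pr q (E κ) = ∑ z, wt q z * (#{κ ∈ 𝒦 | E κ z} : ℝ) := by
  simp only [Pr]
  rw [sum_comm]
  refine sum_congr rfl fun z _ => ?_
  rw [← sum_filter, sum_const, nsmul_eq_mul, mul_comm]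

theorem avgSparse {ι Ω : Type} {𝒦 : Finset Ω} {P : Finset ι} {C : ι → Finset V} {f : ι → ℕ}
    {Q s : ℕ} {b : Finset V} {E : Ω → Finset V → Prop} {ε : ℝ} (hQ : 8 ≤ Q)
    (hP : ∀ π ∈ P, 2 * P.card ≤ 2 ^ f π) (hF : Fat P C f Q (s + 1) b)
    (hE : ∑ κ ∈ 𝒦, Pr (4 / (Q : ℝ)) (fun z => E κ (b ∪ z)) ≤ ε * 𝒦.card) :
    ∃ b', b ⊆ b' ∧ Fat P C f Q s b' ∧
      ∃ B : Finset Ω, (B.card : ℝ) ≤ 4 * ε * 𝒦.card ∧ ∀ κ ∈ 𝒦, E κ b' → κ ∈ B := by
  classical
  have hQ' : (8 : ℝ) ≤ Q := by exact_mod_cast hQ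
  have q0 : 0 < 4 / (Q : ℝ) := by positivity
  have q1 : 4 / (Q : ℝ) ≤ 1 / 2 := by
    rw [div_le_iff₀ (by linarith)]
    linarith
  rw [sum_pr] at hE
  have h0 : 0 ≤ ε * 𝒦.card :=
    (sum_nonneg fun z _ => mul_nonneg (wt_nonneg q0 q1 z) (Nat.cast_nonneg _)).trans hE
  obtain ⟨b', a1, a2, B, a3, a4⟩ := sparseS V ι Unit univ P C f Q s b
    (fun _ y => 4 * ε * 𝒦.card < (#{κ ∈ 𝒦 | E κ y} : ℝ)) (1 / 4) hQ hP hF (by norm_num)
    fun _ _ => by
      rcases h0.eq_or_lt with h | h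
      · refine (sum_eq_zero fun z _ => if_neg fun hz => ?_).trans_le (by norm_num)
        have b1 := single_le_sum (f := fun z => wt (4 / (Q : ℝ)) z * (#{κ ∈ 𝒦 | E κ (b ∪ z)} : ℝ))
          (fun z _ => mul_nonneg (wt_nonneg q0 q1 z) (Nat.cast_nonneg _)) (mem_univ z)
        have b2 := mul_pos (Sparse.wt_pos q0 (by linarith) z)
          (show (0 : ℝ) < (#{κ ∈ 𝒦 | E κ (b ∪ z)} : ℝ) by linarith)
        linarith
      · refine le_of_mul_le_mul_right (a := 4 * (ε * 𝒦.card)) ?_ (by linarith)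
        refine le_trans ?_ (hE.trans (by linarith))
        rw [Pr, sum_mul]
        refine sum_le_sum fun z _ => ?_
        have b1 := wt_nonneg q0 q1 z
        split_ifs with hz
        · exact mul_le_mul_of_nonneg_left (by linarith) b1
        · rw [zero_mul]
          positivity
  refine ⟨b', a1, a2, {κ ∈ 𝒦 | E κ b'}, not_lt.1 fun h => ?_,
    fun κ h h' => mem_filter.2 ⟨h, h'⟩⟩
  have b1 : (1 : ℝ) ≤ B.card := by exact_mod_cast card_pos.2 ⟨_, a4 () (mem_univ _) h⟩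
  simp at a3
  linarith

open Classical in
/-- Events that have small positive certificates for good `κ` and are rare at every point do not
happen above the new base point, for most good `κ`. -/
theorem kill {ι Ω : Type} {𝒦 : Finset Ω} {P : Finset ι} {C : ι → Finset V} {f : ι → ℕ}
    {Q s σ : ℕ} {b S : Finset V} {good : Ω → Prop} {g : Ω → Finset V → Prop} {ε : ℝ} (hQ : 8 ≤ Q)
    (hσ : 16 * σ ≤ Q) (hP : ∀ π ∈ P, 2 * P.card ≤ 2 ^ f π) (hF : Fat P C f Q (s + 1) b)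
    (h1 : ∀ κ ∈ 𝒦, good κ → One b S σ (g κ))
    (h2 : ∀ y, b ⊆ y → (#{κ ∈ 𝒦 | g κ y} : ℝ) ≤ ε * 𝒦.card) :
    ∃ b', b ⊆ b' ∧ Fat P C f Q s b' ∧ ∃ B : Finset Ω, (B.card : ℝ) ≤ 8 * ε * 𝒦.card ∧
      ∀ κ ∈ 𝒦, good κ → κ ∉ B → ∀ y, b' ⊆ y → ¬g κ y := by
  have hQ' : (8 : ℝ) ≤ Q := by exact_mod_cast hQ
  have hσ' : (16 * σ : ℝ) ≤ Q := by exact_mod_cast hσ
  have q0 : 0 < 4 / (Q : ℝ) := by positivity
  have q1 : 4 / (Q : ℝ) ≤ 1 / 2 := by
    rw [div_le_iff₀ (by linarith)]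
    linarith
  have q2 : 4 * (4 / (Q : ℝ)) * σ ≤ 1 := by
    rw [← mul_div_assoc, div_mul_eq_mul_div, div_le_one (by linarith)]
    linarith
  have p0 : ∀ E : Finset V → Prop, 0 ≤ Pr (4 / (Q : ℝ)) E := fun E =>
    sum_nonneg fun z _ => by
      split_ifs
      exacts [wt_nonneg q0 q1 z, le_rfl]
  obtain ⟨b', a1, a2, B, a3, a4⟩ := avgSparse (𝒦 := 𝒦) (ε := 2 * ε)
    (E := fun κ a => good κ ∧ ∃ y, a ⊆ y ∧ g κ y) hQ hP hF (by
      refine (sum_le_sum (g := fun κ => 2 * Pr (4 / (Q : ℝ)) fun z => g κ (b ∪ z))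
        fun κ hκ => ?_).trans ?_
      · by_cases h : good κ
        · simp only [h, true_and]
          exact upOne q0 q1 q2 (h1 κ hκ h)
        · simp only [h, false_and, Pr, if_false, sum_const_zero]
          exact mul_nonneg two_pos.le (p0 _)
      · rw [← mul_sum, sum_pr, mul_assoc]
        refine mul_le_mul_of_nonneg_left ((sum_le_sum fun z _ => mul_le_mul_of_nonneg_left
          (h2 _ subset_union_left) (wt_nonneg q0 q1 z)).trans ?_) two_pos.le
        rw [← sum_mul, sum_wt, one_mul])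
  exact ⟨b', a1, a2, B, by linarith, fun κ b1 b2 b3 y b4 b5 => b3 (a4 κ b1 ⟨b2, y, b4, b5⟩)⟩

omit [Fintype V] in
/-- Certificates of a function that depends only on `S` can be taken inside `S`. -/
theorem shrink {b S S' : Finset V} {c : ℕ} {f : Finset V → Prop} (h : One b S' c f)
    (hS : ∀ y y', b ⊆ y → b ⊆ y' → (∀ v ∈ S, v ∈ y' ↔ v ∈ y) → f y → f y') : One b S c f := by
  intro y y1 y2
  obtain ⟨D, -, d2, d3⟩ := h y y1 y2
  refine ⟨D ∩ S, inter_subset_right, (card_le_card inter_subset_left).trans d2,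
    fun y' a1 a2 => hS (y' ∩ S ∪ y \ S) y' (fun v hv => ?_) a1 (fun v hv => by simp [hv])
      (d3 _ (fun v hv => ?_) fun v hv => ?_)⟩
  · by_cases e : v ∈ S <;> simp [e, a1 hv, y1 hv]
  · by_cases e : v ∈ S <;> simp [e, a1 hv, y1 hv]
  · by_cases e : v ∈ S
    · simpa [e] using a2 v (mem_inter.2 ⟨hv, e⟩)
    · simp [e]

end Pool.Agent.MP_a2d820_lc.h22q
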