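import Mathlib
import Pool.Agent.MP_a2d820_lc.h22.V2

/-!
Rows with one root and a unique false child: completion, the two kinds of stages, and the limit.
-/

set_option autoImplicit false

namespace Pool.Agent.MP_a2d820_lc.h22q

open Finset Pool.Agent.MP_a2d820_lc.h69 Pool.Agent.MP_a2d820_lc.h31u Pool.Agent.PolyT
  Pool.Agent.H82 N487b59b3 Function
open Pool.Agent.MP_a2d820_lc.h70 (Fn Agl Ac Tw exists_bd rw3 rw3_inj bd lvR btR muR nuR)
open Pool.Agent.MP_a2d820_lc.h22 (RelUP)
open Pool.Agent.MP_a2d820_lc.h31p (nw rowOf)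
open Pool.Agent.MP_a2d820_lc.h22p
open Pool.Agent.MP_a2d820_lc.h22v (bt Adm inp length_inp)

/-- The root `j` of the tree of height `k + 1` with leaves `a` has the value `β` and at most one
false child. -/
def Rt (k : ℕ) (a : Lang) (j : List Bool) (β : Bool) : Prop :=
  nw (k + 1) a j = β ∧ ∀ w w' : List Bool, w.length = 8 * j.length → w'.length = 8 * j.length →
    nw k a (w ++ j) = false → nw k a (w' ++ j) = false → w = w'

/-- Leaves that give the root the value `b`. -/
def patu (n k : ℕ) (b : Bool) : Lang := fun j =>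
  xor (!(b && decide (j.drop (j.length - 9 * n) = List.replicate (8 * n) false ++ rt n 0)))
    (decide (Odd k))

theorem rt_pat (n k : ℕ) (b : Bool) : Rt k (patu n k b) (rt n 0) b := by
  have h : ∀ w : List Bool, w.length = 8 * n → nw k (patu n k b) (w ++ rt n 0) =
      !(b && decide (w = List.replicate (8 * n) false)) := fun w hw => by
    rw [nw_suffix (a' := fun _ => xor (!(b && decide (w = List.replicate (8 * n) false)))
      (decide (Odd k))) fun v _ => by
        rw [patu, List.drop_left' (by simp [hw]; omega)]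
        simp, nw_const]
    simp
  refine ⟨?_, fun w w' a1 a2 a3 a4 => ?_⟩
  · rw [Bool.eq_iff_iff]
    simp only [nw, decide_eq_true_eq, length_rt]
    constructor
    · rintro ⟨w, a1, a2⟩
      rw [h w a1] at a2
      simp at a2
      exact a2.1
    · intro hb
      exact ⟨List.replicate (8 * n) false, by simp, by rw [h _ (by simp)]; simp [hb]⟩
  · rw [length_rt] at a1 a2
    rw [h w a1] at a3
    rw [h w' a2] at a4
    simp at a3 a4
    rw [a3.2, a4.2]

section
variable {c : ℕ → ℕ} (lv : List Bool → ℕ) {β : List Bool → ℕ} (mu : List Bool → Fn (List Bool))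
  {nu : List Bool → Fn (List Bool)}

/-- The rows in `J` store the right bit at their root, which has at most one false child. -/
def LgU (J : Set (List Bool)) (A : Lang) : Prop :=
  ∀ u ∈ J, Rt (lv u) (rowOf A u) (rt u.length 0) (mu u A)

variable {lv mu}

theorem lgU {u : List Bool} (h : h22p.Small c lv β mu nu u) {m : ℕ} (hm : u.length < m)
    {A A' : Lang} (a : Agl m A A') (e : Rt (lv u) (rowOf A u) (rt u.length 0) (mu u A)) :
    Rt (lv u) (rowOf A' u) (rt u.length 0) (mu u A') := by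
  rwa [← (h.loc (h.2.1.trans hm.le) a).1,
    show rowOf A' u = rowOf A u from funext fun j => (a _ (by simpa using hm)).symm]

theorem completeU {Act : Set (List Bool)} (hS : ∀ u ∈ Act, h22p.Small c lv β mu nu u) (A : Lang)
    (m : ℕ) (hA : LgU lv mu {u ∈ Act | u.length < m} A) :
    ∃ A', Agl m A A' ∧ LgU lv mu Act A' := by
  classical
  let F : List Bool → Lang → Bool := fun s O =>
    if m ≤ lev s ∧ row s ∈ Act then
      patu (row s).length (lv (row s)) (mu (row s) O) (third (sel true (sel false s))) else A s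
  have h1 : Agl m A (fix F) := fun s hs => by
    rw [fix]
    exact (if_neg fun h => by omega).symm
  refine ⟨fix F, h1, fun u hu => ?_⟩
  have h2 := hS u hu
  by_cases h : u.length < m
  · exact lgU h2 h h1 (hA u ⟨hu, h⟩)
  rw [show rowOf (fix F) u = patu u.length (lv u) (mu u (fix F)) from funext fun j => ?_]
  · exact rt_pat _ _ _
  rw [rowOf, fix]
  simp only [F, row_ad, lev_ad]
  rw [if_pos ⟨by omega, hu⟩, (h2.2.2.2.2.2 _ (fix F) fun v hv => if_pos ?_).1, col_ad]
  exact hv.trans_le (h2.2.1.trans (le_length_ad _ _ _))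

end

/-- One diagonal stage, for a given padding exponent. -/
def DiagU (c : ℕ → ℕ) : Prop :=
  ∀ K d e : ℕ, ∀ᶠ n in Filter.atTop,
    ∀ (lv β : List Bool → ℕ) (mu nu : List Bool → Fn (List Bool)) (Act : Set (List Bool))
      (A₀ : Lang) (f : Fn (List Bool)),
      (∀ u ∈ Act, h22p.Small c lv β mu nu u ∧ lv u ≤ K) →
      (∀ l b, ∃ I : Finset (List Bool), I.card ≤ (K + 1) * 2 ^ b ∧
        ∀ u ∈ Act, u.length = l → β u ≤ b → u ∈ I) →
      LgU lv mu Act A₀ → List.replicate n false ∉ Act → f ∈ Ac (n ^ e) d →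
      (∀ A A' : Lang, (∀ v, v.length < n ^ e → A v = A' v) → f A = f A') →
      ∃ A, Agl n A₀ A ∧ LgU lv mu Act A ∧
        f A ≠ nw (d + 1) (rowOf A (List.replicate n false)) (rt n 0)

section
variable (c : ℕ → ℕ) (τ : ℕ → Tw × Tw)

/-- The oracle satisfies the condition. -/
def Sat (a : ℕ × Lang × Set (List Bool)) (A : Lang) : Prop :=
  Agl a.1 a.2.1 A ∧ LgU (lvR τ) (muR τ) a.2.2 A

/-- Valid conditions. -/
def Val (a : ℕ × Lang × Set (List Bool)) : Prop :=
  (∃ K, Adm c τ K a.2.2) ∧ LgU (lvR τ) (muR τ) a.2.2 a.2.1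

/-- The requirement can be forced below every condition. -/
def Frc (P : Lang → Prop) : Prop :=
  ∀ a, Val c τ a → ∃ a', Val c τ a' ∧ a.1 < a'.1 ∧ Agl a.1 a.2.1 a'.2.1 ∧ a.2.2 ⊆ a'.2.2 ∧
    ∀ A, Sat τ a' A → P A

variable {c τ}

theorem frc_diag (hc : DiagU c)
    (m : Tw) (inp : ℕ → List Bool) (P : Polynomial ℕ) (hP : ∀ n, (inp n).length ≤ P.eval n) :
    Frc c τ fun A => ∃ n, 1 ≤ n ∧ ev m.1 m.2 A (inp n) ≠
      nw (m.2.length + 1) (rowOf A (List.replicate n false)) (rt n 0) := by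
  rintro ⟨m₀, A₀, Act⟩ ⟨⟨K, hK⟩, h1⟩
  obtain ⟨B, hB⟩ := exists_bd m
  obtain ⟨e, he⟩ := poly_le_pow (B.comp P + Polynomial.X + 1)
  obtain ⟨n, e1, e2⟩ := ((hc K m.2.length (2 * e)).and
    (Filter.eventually_ge_atTop (m₀ + 2))).exists
  have hT : B.eval (P.eval n) + n < n ^ (2 * e) := by
    have b1 := he n
    have b2 : (n + 2) ^ e ≤ (n ^ 2) ^ e := Nat.pow_le_pow_left (by nlinarith) _
    rw [← pow_mul] at b2
    simp only [Polynomial.eval_add, Polynomial.eval_X, Polynomial.eval_comp,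
      Polynomial.eval_one] at b1
    omega
  obtain ⟨b1, b2⟩ := hB (inp n) _ (n ^ (2 * e)) (hP n) (by omega)
  have h3 : ∀ A, Agl n A₀ A → Agl m₀ A₀ A := fun A h s hs => h s (by omega)
  obtain ⟨A, c1, c2, c3⟩ := e1 _ _ _ _ Act A₀ _ hK.small hK.count h1 (fun h => by
      obtain ⟨i, y, p, k, e, -⟩ := hK _ h
      have : true ∈ List.replicate n false := by rw [e]; exact List.mem_cons_self
      simp at this) b1 b2
  refine ⟨(n ^ (2 * e), A, Act), ⟨⟨K, hK⟩, c2⟩,
    by dsimp only; omega, h3 A c1, subset_rfl, fun A' hA' => ⟨n, by omega, ?_⟩⟩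
  rwa [← b2 A A' fun v hv => hA'.1 v ((lev_le v).trans_lt hv),
    ← show rowOf A (List.replicate n false) = rowOf A' (List.replicate n false) from
      funext fun j => hA'.1 (ad (List.replicate n false) j 0) (by
        simp only [lev_ad, List.length_replicate]; omega)]

theorem frc_code (i : ℕ) : Frc c τ fun A => ∀ k, (τ i).1.2.length = k + 1 →
    (τ i).2.2.length = k + 1 → ∃ U, PolyT.Poly U ∧ ∀ x,
      Rt k (rowOf A (U x)) (rt (U x).length 0) (ev (τ i).1.1 (τ i).1.2 A x) := by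
  rintro ⟨m, A₀, Act⟩ ⟨⟨K, hK⟩, h1⟩
  by_cases h3 : ∃ k, (τ i).1.2.length = k + 1 ∧ (τ i).2.2.length = k + 1
  swap
  · exact ⟨(m + 1, A₀, Act), ⟨⟨K, hK⟩, h1⟩, Nat.lt_succ_self m,
      fun _ _ => rfl, subset_rfl, fun A _ k a b => absurd ⟨k, a, b⟩ h3⟩
  obtain ⟨k, k1, k2⟩ := h3
  obtain ⟨F, hF, hF'⟩ := exists_list_eval (l := fun x : List Bool => x) (by fun_prop)
    ((bd τ i + 1) ^ (c k + 1) + (m : Polynomial ℕ))
  let U : List Bool → List Bool := fun x => rw3 (i, x, (F x).map fun _ => false)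
  have hU : ∀ x, ((bd τ i).eval x.length + 1) ^ (c k + 1) + m < (U x).length := fun x => by
    have := hF' x
    simp only [Polynomial.eval_add, Polynomial.eval_pow, Polynomial.eval_natCast,
      Nat.cast_id, Polynomial.eval_one] at this
    simp only [U, rw3, List.length_cons, length_enc_pair, PolyT.Poly.enc_bools_length,
      List.length_map]
    omega
  have hK' : Adm c τ (K + i + k) (Act ∪ Set.range U) := by
    rintro u (hu | ⟨x, rfl⟩)
    · obtain ⟨i', x, p, k', a1, a2, a3, a4⟩ := hK u hu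
      exact ⟨i', x, p, k', a1, by omega, by omega, a4⟩
    · exact ⟨i, x, (F x).length, k, by simp [U], by omega, by omega, k1, k2,
        by have := hU x; omega⟩
  obtain ⟨A, a1, a2⟩ := completeU (fun u hu => (hK'.small u hu).1) A₀ (m + 1) (by
    rintro u ⟨hu | ⟨x, rfl⟩, h⟩
    · exact h1 u hu
    · have := hU x
      omega)
  refine ⟨(m + 1, A, Act ∪ Set.range U), ⟨⟨_, hK'⟩, a2⟩, Nat.lt_succ_self m,
    fun s hs => a1 s (Nat.lt_succ_of_lt hs), Set.subset_union_left, fun A' hA' k' e _ =>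
      ⟨U, by unfold U rw3; fun_prop, fun x => ?_⟩⟩
  have := hA'.2 (U x) (Or.inr ⟨x, rfl⟩)
  simp only [U, muR, lvR, rw3_inj.extend_apply, e, Nat.add_sub_cancel] at this
  exact this

theorem exists_lim (P : ℕ → Lang → Prop) (hP : ∀ i, Frc c τ (P i)) : ∃ A, ∀ i, P i A := by
  choose F h0 h1 h2 h3 h4 using hP
  let a : ℕ → {a // Val c τ a} := fun i => Nat.rec
    ⟨(0, fun _ => false, ∅), ⟨0, fun _ h => h.elim⟩, fun _ h => h.elim⟩
    (fun i a => ⟨F i a.1 a.2, h0 i a.1 a.2⟩) i
  have hmono : StrictMono fun i => (a i).1.1 := strictMono_nat_of_lt_succ fun i => h1 i _ (a i).2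
  have hsub : Monotone fun i => (a i).1.2.2 := monotone_nat_of_le_succ fun i => h3 i _ (a i).2
  have hag : ∀ i j, i ≤ j → Agl (a i).1.1 (a i).1.2.1 (a j).1.2.1 := by
    intro i j hij
    induction j, hij using Nat.le_induction with
    | base => exact fun _ _ => rfl
    | succ j hij ih =>
      exact fun s hs => (ih s hs).trans (h2 j _ (a j).2 s (hs.trans_le (hmono.monotone hij)))
  have hlim : ∀ i, Agl (a i).1.1 (a i).1.2.1 fun s => (a (lev s + 1)).1.2.1 s := by
    intro i s hs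
    rcases le_total i (lev s + 1) with h | h
    · exact hag _ _ h s hs
    · exact (hag _ _ h s (hmono.le_apply (x := lev s + 1))).symm
  refine ⟨fun s => (a (lev s + 1)).1.2.1 s, fun i => h4 i _ (a i).2 _
    ⟨hlim (i + 1), fun u hu => ?_⟩⟩
  obtain ⟨⟨K, hK⟩, b1⟩ := (a (i + 1 + u.length)).2
  have b2 : u ∈ (a (i + 1 + u.length)).1.2.2 := hsub (Nat.le_add_right _ _) hu
  exact lgU (hK.small u b2).1
    (lt_of_lt_of_le (by omega) (hmono.le_apply (x := i + 1 + u.length))) (hlim _) (b1 u b2)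

end

theorem one_query_if {Q : List Bool → List Bool} {g : List Bool → Bool} (hQ : PolyT.Poly Q)
    (hg : PolyT.Poly g) (O : Lang) : (fun x => g x && !O (Q x)) ∈ RelP O := by
  obtain ⟨M, hM⟩ := exists_om (ini := fun x => (x, [], [])) (Q := fun c => Q c.1)
    (δ := fun p => p.1) (fin := fun _ => true) (out := fun p => g p.1.1 && !p.2)
    (by fun_prop) (by fun_prop) (by fun_prop) (by fun_prop) (by fun_prop)
  refine ⟨M, 6 * Polynomial.X + 4, fun x => ⟨1, by simp, ?_⟩⟩
  exact hM O x 0 _ (fun _ => (x, [], [])) rfl (by simp) (by simp) rfl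
    (fun _ _ => by simp [length_st]) (by simp; omega)

theorem up_mem {A O L : Lang} {k : ℕ} {φ U : List Bool → List Bool} (hφ : PolyT.Poly φ)
    (hO : ∀ c, O (φ c) = gw A k c) (hU : PolyT.Poly U)
    (h : ∀ x, Rt k (rowOf A (U x)) (rt (U x).length 0) (L x)) : L ∈ RelUP O := by
  obtain ⟨p, hp⟩ := hU.bd
  have e : ∀ x w : List Bool, (eqB w.length (8 * (U x).length) &&
      !O (φ (bitEncode (U x, w ++ dig (U x) 0)))) = true ↔
      w.length = 8 * (U x).length ∧ nw k (rowOf A (U x)) (w ++ rt (U x).length 0) = false := by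
    intro x w
    rw [hO, gw_enc, dig_eq]
    simp
  refine ⟨8 * p.comp (3 * Polynomial.X), _, one_query_if
    (Q := fun d => φ (bitEncode (U (sel true d), sel false d ++ dig (U (sel true d)) 0)))
    (g := fun d => eqB (sel false d).length (8 * (U (sel true d)).length))
    (by unfold dig; fun_prop) (by fun_prop) O, fun x => ?_, fun x w w' _ _ => ?_⟩
  · simp only [sel_pair, if_true, Bool.false_eq_true, if_false, e]
    rw [← (h x).1]
    simp only [nw, decide_eq_true_eq, length_rt]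
    refine exists_congr fun w => (and_iff_right_of_imp fun a => ?_).symm
    have := hp x
    simp only [PolyT.Poly.enc_bools_length] at this
    simp only [Polynomial.eval_comp, Polynomial.eval_mul, Polynomial.eval_ofNat,
      Polynomial.eval_X]
    omega
  · simp only [sel_pair, if_true, Bool.false_eq_true, if_false, e]
    exact fun a b => (h x).2 w w' (by rw [length_rt]; exact a.1) (by rw [length_rt]; exact b.1)
      a.2 b.2

theorem relP_join {A L : Lang} (B : Lang) (h : L ∈ RelP A) : L ∈ RelP (join A B) := by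
  obtain ⟨M, p, h⟩ := h
  have hq := (poly_iff _).2 M.qry_poly
  let M' : OM := ⟨fun c => false :: M.qry c, M.nxt, (poly_iff _).1 (by fun_prop), M.nxt_poly⟩
  have key : ∀ x r, M'.run (join A B) x r = M.run A x r := by
    intro x r
    induction r with
    | zero => rfl
    | succ r ih => simp only [OM.run, ih, M', join]
  exact ⟨M', p, fun x => (h x).imp fun t ht =>
    ⟨ht.1, (key x t).trans ht.2.1, fun r hr => key x r ▸ ht.2.2 r hr⟩⟩

theorem final {c : ℕ → ℕ} (hc : DiagU c) : ∃ A : Lang, RelNP A = RelUP A ∧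
    (∀ k, RelSigma A (k + 1) = {L | ∃ B ∈ RelSigma A k, L ∈ RelUP (join A B)}) ∧
    (∀ k, ∃ L ∈ RelSigma A (k + 1), L ∉ RelSigma A k) ∧
    ∃ L ∈ RelPSPACE A, ∀ k, L ∉ RelSigma A k := by
  obtain ⟨τ, hτ⟩ := exists_surjective_nat (Tw × Tw)
  obtain ⟨π, hπ⟩ := exists_surjective_nat (ℕ ⊕ Bool × Tw)
  let g : ℕ ⊕ Bool × Tw → {P // Frc c τ P} :=
    Sum.elim (fun i => ⟨_, frc_code i⟩)
      fun y => ⟨_, frc_diag hc y.2 (inp y.1 y.2.2.length) _ (length_inp _ _)⟩
  obtain ⟨A, hA⟩ := exists_lim (fun n => (g (π n)).1) fun n => (g (π n)).2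
  have key : ∀ (k : ℕ) (L : Lang) (s : Bool), L ∈ RelSigma A k → ∃ n, 1 ≤ n ∧ L (inp s k n) ≠
      nw (k + 1) (rowOf A (List.replicate n false)) (rt n 0) := by
    intro k L s hL
    obtain ⟨b, l, rfl, rfl⟩ := exists_ev' hL
    obtain ⟨n, hn⟩ := hπ (Sum.inr (s, b, l))
    have := hA n
    rw [hn] at this
    exact this
  have code : ∀ k, ∀ L ∈ RelSigma A (k + 1), ∃ U, PolyT.Poly U ∧ ∀ x,
      Rt k (rowOf A (U x)) (rt (U x).length 0) (L x) := by
    intro k L h
    obtain ⟨b, l, e, rfl⟩ := exists_ev' h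
    obtain ⟨i, hi⟩ := hτ ((b, l), (b, l))
    obtain ⟨n, hn⟩ := hπ (Sum.inl i)
    have := hA n
    rw [hn] at this
    simp only [g, Sum.elim_inl, hi] at this
    exact this k e e
  have hrow : PolyT.Poly row := by unfold row; fun_prop
  refine ⟨A, Set.Subset.antisymm (fun L ⟨p, R, h1, h2⟩ => ?_)
    fun L ⟨p, R, h1, h2, _⟩ => ⟨p, R, h1, h2⟩,
    fun k => Set.Subset.antisymm (fun L h => ?_)
      fun L ⟨B, hB, p, R, h1, h2, _⟩ => ⟨B, hB, p, R, h1, h2⟩,
    fun k => ⟨_, gw_mem A (k + 1), fun h => ?_⟩, _, ga_mem A, fun k h => ?_⟩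
  · obtain ⟨U, u1, u2⟩ := code 0 L ⟨R, h1, p, R, relP_join R h1, h2⟩
    exact up_mem (φ := fun c => ad (row c) (third (sel false c)) 0) (by fun_prop)
      (fun _ => rfl) u1 u2
  · obtain ⟨U, u1, u2⟩ := code k L h
    exact ⟨_, gw_mem A k, up_mem (φ := fun c => true :: c) (by fun_prop) (fun _ => rfl) u1 u2⟩
  · obtain ⟨n, -, hn⟩ := key k _ false h
    exact hn (by rw [inp, cond_false, gw_enc])
  · obtain ⟨n, h1, hn⟩ := key k _ true h
    exact hn (by
      rw [inp, cond_true, ga_enc, ← tv_mw _ _ _ (by rwa [length_rt]), length_rt]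
      rfl)

end Pool.Agent.MP_a2d820_lc.h22q
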